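import Pool.Agent.H17.Cyclide

set_option autoImplicit false

namespace Pool.Agent.Results.MP_048963_co.EightPoints

open MvPolynomial

/-- A circle of positive radius in the Euclidean plane (points are pairs of coordinates). -/
def IsCircle (Γ : Set (ℝ × ℝ)) : Prop :=
  ∃ (c : ℝ × ℝ) (r : ℝ), 0 < r ∧ Γ = {p | (p.1 - c.1) ^ 2 + (p.2 - c.2) ^ 2 = r ^ 2}

/-- A straight line. -/
def IsLine (Γ : Set (ℝ × ℝ)) : Prop :=
  ∃ a b c : ℝ, (a ≠ 0 ∨ b ≠ 0) ∧ Γ = {p | a * p.1 + b * p.2 = c}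

/-- Inversion in the circle with centre c and radius r. -/
noncomputable def inversion (c : ℝ × ℝ) (r : ℝ) (p : ℝ × ℝ) : ℝ × ℝ :=
  (c.1 + r ^ 2 * (p.1 - c.1) / ((p.1 - c.1) ^ 2 + (p.2 - c.2) ^ 2),
    c.2 + r ^ 2 * (p.2 - c.2) / ((p.1 - c.1) ^ 2 + (p.2 - c.2) ^ 2))

/-- The zero set of a conic of elliptic type (every ellipse is one). -/
def IsEllipse (Γ : Set (ℝ × ℝ)) : Prop :=
  ∃ a b c d e f : ℝ, b ^ 2 < 4 * a * c ∧
    Γ = {p | a * p.1 ^ 2 + b * p.1 * p.2 + c * p.2 ^ 2 + d * p.1 + e * p.2 + f = 0}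

/-- A union of two disjoint circles. -/
def IsTwoDisjointCircles (Γ : Set (ℝ × ℝ)) : Prop :=
  ∃ Γ₁ Γ₂ : Set (ℝ × ℝ), IsCircle Γ₁ ∧ IsCircle Γ₂ ∧ Disjoint Γ₁ Γ₂ ∧ Γ = Γ₁ ∪ Γ₂

/-- The real affine zero set of an irreducible polynomial (ux+vy)(x^2+y^2) + q(x,y,1). -/
def IsIrredCircularCubic (Γ : Set (ℝ × ℝ)) : Prop :=
  ∃ (u v a b c d e f : ℝ) (F : MvPolynomial (Fin 2) ℝ),
    F = (C u * X 0 + C v * X 1) * (X 0 ^ 2 + X 1 ^ 2) + C a * X 0 ^ 2 + C b * X 0 * X 1 +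
      C c * X 1 ^ 2 + C d * X 0 + C e * X 1 + C f ∧ Irreducible F ∧
    Γ = {p | eval ![p.1, p.2] F = 0}

/-- The image of an irreducible circular cubic under an inversion centred off the cubic, together
with the centre (the image of the point at infinity). -/
def IsBicircularQuartic (Γ : Set (ℝ × ℝ)) : Prop :=
  ∃ (Γ₀ : Set (ℝ × ℝ)) (c : ℝ × ℝ) (r : ℝ), IsIrredCircularCubic Γ₀ ∧ c ∉ Γ₀ ∧ 0 < r ∧
    Γ = insert c (inversion c r '' Γ₀)

/-- S lies up to inversion on the curve. -/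
def UpToInversionOn (S Γ : Set (ℝ × ℝ)) : Prop :=
  S ⊆ Γ ∨ ∃ (c : ℝ × ℝ) (r : ℝ), c ∉ S ∧ 0 < r ∧ inversion c r '' S ⊆ Γ

/-- Every circle containing at least three points of S = R ∪ B contains points of S of both
colours. -/
def NoMonochromaticCircle (R B : Set (ℝ × ℝ)) : Prop :=
  ∀ Γ, IsCircle Γ → 3 ≤ (Γ ∩ (R ∪ B)).ncard → ¬ Γ ∩ (R ∪ B) ⊆ R ∧ ¬ Γ ∩ (R ∪ B) ⊆ B

open Pool.Agent.H17.Cyclide

def red : Set (ℝ × ℝ) := {(-1, -1), (-1, 2), (0, 1), (2, -1)}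

def blue : Set (ℝ × ℝ) := {(-2, -1), (0, -2), (1, 0), (2, 2)}

noncomputable def cross : Set (ℝ × ℝ) :=
  {((-1 + √5) / 2, (-1 - √5) / 2), ((-1 - √5) / 2, (-1 + √5) / 2)}

theorem base : Rigid (red ∪ blue) cross := by
  refine ⟨lin 1 (-1) (-1) (-4), lin 1 1 1 (-2), ⟨_, _, _, _, rfl⟩, ⟨_, _, _, _, rfl⟩,
    ⟨(-1, -1), by simp [red], (-1, 2), by simp [red], by norm_num, by norm_num [lin],
      by norm_num [lin]⟩,
    ⟨(0, 1), by simp [red], (1, 0), by simp [blue], by norm_num, by norm_num [lin],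
      by norm_num [lin]⟩, ?_, ?_⟩
  · have h5 : √5 ^ 2 = 5 := Real.sq_sqrt (by norm_num)
    rintro q (rfl | rfl) <;> simp only [lin] <;> constructor <;> linarith
  · intro G hG hz
    obtain ⟨w, rfl⟩ := cyc_form hG
    have h1 := hz (-1, -1) (by simp [red])
    have h2 := hz (-1, 2) (by simp [red])
    have h3 := hz (0, 1) (by simp [red])
    have h4 := hz (2, -1) (by simp [red])
    have h5 := hz (-2, -1) (by simp [blue])
    have h6 := hz (0, -2) (by simp [blue])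
    have h7 := hz (1, 0) (by simp [blue])
    have h8 := hz (2, 2) (by simp [blue])
    simp only [form] at h1 h2 h3 h4 h5 h6 h7 h8
    have e1 : w 1 = 0 := by linarith
    have e2 : w 2 = 0 := by linarith
    have e3 : w 3 = -7 * w 0 := by linarith
    have e4 : w 4 = -2 * w 0 := by linarith
    have e5 : w 5 = -7 * w 0 := by linarith
    have e6 : w 6 = -2 * w 0 := by linarith
    have e7 : w 7 = -2 * w 0 := by linarith
    have e8 : w 8 = 8 * w 0 := by linarith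
    refine ⟨w 0, fun p => ?_⟩
    simp only [form, lin, e1, e2, e3, e4, e5, e6, e7, e8]
    ring

theorem final {T Q Γ : Set (ℝ × ℝ)} (h : Rigid T Q) (hQ : Q.Nonempty) (hT : T ⊆ Γ)
    (hΓ : IsEllipse Γ ∨ IsTwoDisjointCircles Γ ∨ IsIrredCircularCubic Γ ∨
      IsBicircularQuartic Γ) : False := by
  obtain ⟨q, hq⟩ := hQ
  rcases hΓ with ⟨a, b, c, d, e, f, hd, rfl⟩ |
    ⟨_, _, ⟨c, r, hr, rfl⟩, ⟨c', r', hr', rfl⟩, hd, rfl⟩ | ⟨u, v, a, b, c, d, e, f, F, hF, hi, rfl⟩ |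
    ⟨_, o, r, ⟨u, v, a, b, c, d, e, f, F, hF, hi, rfl⟩, ho, hr, rfl⟩
  · exact h.not_ellipse hq a b c d e f hd hT
  · exact h.not_circles hq c c' r r' hr hr' (fun p h1 h2 => Set.disjoint_left.1 hd h1 h2) hT
  · exact h.not_cubic hF hi hT
  · refine h.not_quartic hF hi o hr (fun p hp hpo => ?_)
    rcases hT hp with h1 | ⟨z, hz, rfl⟩
    · exact absurd h1 hpo
    · have hzo : z ≠ o := fun h => ho (h ▸ hz)
      have : inversion o r z = inv o r z := rfl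
      rw [this, inv_inv hr hzo]
      exact hz

theorem three {α : Type} {s : Set α} {a b c d : α} (h : 3 ≤ s.ncard) (hs : s ⊆ {a, b, c, d}) :
    (a ∈ s ∧ b ∈ s ∧ c ∈ s) ∨ (a ∈ s ∧ b ∈ s ∧ d ∈ s) ∨ (a ∈ s ∧ c ∈ s ∧ d ∈ s) ∨
      (b ∈ s ∧ c ∈ s ∧ d ∈ s) := by
  have hf : s.Finite := (Set.toFinite _).subset hs
  obtain ⟨x, y, z, hx, hy, hz, h1, h2, h3⟩ := (Set.two_lt_ncard_iff hf).1 h
  rcases hs hx with rfl | rfl | rfl | rfl <;> rcases hs hy with rfl | rfl | rfl | rfl <;>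
    rcases hs hz with rfl | rfl | rfl | rfl <;> tauto

theorem result : ∃ R B : Set (ℝ × ℝ), R.Finite ∧ B.Finite ∧ Disjoint R B ∧
    NoMonochromaticCircle R B ∧
    (∀ Γ, IsCircle Γ ∨ IsLine Γ → ¬ R ⊆ Γ ∧ ¬ B ⊆ Γ) ∧
    ∀ Γ, IsEllipse Γ ∨ IsTwoDisjointCircles Γ ∨ IsIrredCircularCubic Γ ∨ IsBicircularQuartic Γ →
      ¬ UpToInversionOn (R ∪ B) Γ := by
  have hdis : Disjoint red blue := by
    rw [Set.disjoint_left]
    rintro p (rfl | rfl | rfl | rfl) <;> norm_num [blue]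
  refine ⟨red, blue, by simp [red], by simp [blue], hdis, ?_, ?_, ?_⟩
  · rintro _ ⟨c, r, -, rfl⟩ h3
    constructor
    · intro hs
      have nb : ∀ p ∈ blue, ¬ (p.1 - c.1) ^ 2 + (p.2 - c.2) ^ 2 = r ^ 2 := fun p hp h =>
        Set.disjoint_left.1 hdis (hs ⟨h, Or.inr hp⟩) hp
      rcases three h3 hs with ⟨⟨h1, -⟩, ⟨h2, -⟩, ⟨h3, -⟩⟩ | ⟨⟨h1, -⟩, ⟨h2, -⟩, ⟨h3, -⟩⟩ |
        ⟨⟨h1, -⟩, ⟨h2, -⟩, ⟨h3, -⟩⟩ | ⟨⟨h1, -⟩, ⟨h2, -⟩, ⟨h3, -⟩⟩ <;>
        simp only [Set.mem_ofPred_eq] at h1 h2 h3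
      · exact nb (-2, -1) (by simp [blue]) (by simp only; linarith)
      · exact nb (2, 2) (by simp [blue]) (by simp only; linarith)
      · exact nb (0, -2) (by simp [blue]) (by simp only; linarith)
      · linarith
    · intro hs
      have nb : ∀ p ∈ red, ¬ (p.1 - c.1) ^ 2 + (p.2 - c.2) ^ 2 = r ^ 2 := fun p hp h =>
        Set.disjoint_left.1 hdis hp (hs ⟨h, Or.inl hp⟩)
      rcases three h3 hs with ⟨⟨h1, -⟩, ⟨h2, -⟩, ⟨h3, -⟩⟩ | ⟨⟨h1, -⟩, ⟨h2, -⟩, ⟨h3, -⟩⟩ |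
        ⟨⟨h1, -⟩, ⟨h2, -⟩, ⟨h3, -⟩⟩ | ⟨⟨h1, -⟩, ⟨h2, -⟩, ⟨h3, -⟩⟩ <;>
        simp only [Set.mem_ofPred_eq] at h1 h2 h3
      · exact nb (0, 1) (by simp [red]) (by simp only; linarith)
      · exact nb (2, -1) (by simp [red]) (by simp only; linarith)
      · exact nb (-1, -1) (by simp [red]) (by simp only; linarith)
      · linarith
  · rintro _ (⟨c, r, -, rfl⟩ | ⟨a, b, c, hab, rfl⟩) <;> constructor <;> intro hs
    · have h2 := hs (show ((-1, 2) : ℝ × ℝ) ∈ red by simp [red])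
      have h3 := hs (show ((0, 1) : ℝ × ℝ) ∈ red by simp [red])
      have h4 := hs (show ((2, -1) : ℝ × ℝ) ∈ red by simp [red])
      simp only [Set.mem_ofPred_eq] at h2 h3 h4
      linarith
    · have h2 := hs (show ((0, -2) : ℝ × ℝ) ∈ blue by simp [blue])
      have h3 := hs (show ((1, 0) : ℝ × ℝ) ∈ blue by simp [blue])
      have h4 := hs (show ((2, 2) : ℝ × ℝ) ∈ blue by simp [blue])
      simp only [Set.mem_ofPred_eq] at h2 h3 h4
      linarith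
    · have h1 := hs (show ((-1, -1) : ℝ × ℝ) ∈ red by simp [red])
      have h2 := hs (show ((-1, 2) : ℝ × ℝ) ∈ red by simp [red])
      have h3 := hs (show ((0, 1) : ℝ × ℝ) ∈ red by simp [red])
      simp only [Set.mem_ofPred_eq] at h1 h2 h3
      rcases hab with h | h <;> apply h <;> linarith
    · have h1 := hs (show ((-2, -1) : ℝ × ℝ) ∈ blue by simp [blue])
      have h2 := hs (show ((0, -2) : ℝ × ℝ) ∈ blue by simp [blue])
      have h3 := hs (show ((1, 0) : ℝ × ℝ) ∈ blue by simp [blue])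
      simp only [Set.mem_ofPred_eq] at h1 h2 h3
      rcases hab with h | h <;> apply h <;> linarith
  · rintro Γ hΓ (h | ⟨c, r, hc, hr, h⟩)
    · exact final base ⟨_, Or.inl rfl⟩ h hΓ
    · refine final (base.inv hr hc) (Set.Nonempty.image _ ?_) h hΓ
      have h5 : 0 < √5 := Real.sqrt_pos.2 (by norm_num)
      by_cases hc1 : ((-1 + √5) / 2, (-1 - √5) / 2) = c
      · refine ⟨_, Or.inr rfl, fun h => ?_⟩
        have := congrArg Prod.fst (hc1.trans (Set.mem_singleton_iff.1 h).symm)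
        simp only at this
        linarith
      · exact ⟨_, Or.inl rfl, hc1⟩

end Pool.Agent.Results.MP_048963_co.EightPoints
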